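import Pool.Agent.Work.MP_8da9ea_nt.AD.Asm

/-!
# The elliptico-toric inequality for almost all integers
-/

set_option autoImplicit false

namespace Pool.Agent.Results.MP_8da9ea_nt.AlmostAllIntegers

open Pool.Agent.Work.MP_8da9ea_nt Pool.Agent.Work.MP_8da9ea_nt.S Pool.Agent.Work.MP_8da9ea_nt.AD

/-- The numbers `log p` are linearly independent over `ℚ`, so `z = log` is an example of the following.

Let `z : ℕ → ℂ` be completely additive (`z (k n) = z k + z n`) with `ℚ`-linearly independent values `z p` at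
the primes. There is ONE set `E` of logarithmic density `0` (the sum of `1 / n` over `n ∈ E`, `n ≤ N`,
divided by `log N`, tends to `0`) such that for all `ℚ`-linearly independent algebraic numbers
`b_1, …, b_m` the following holds for all positive integers `n` outside `E`, up to finitely many, with
`z = z n`.
* (1) Schanuel's inequality holds for `(b_1 z, …, b_m z)`. Let `r + N + 1 ≤ m` and let `ω₁`, `ω₂`, `t`, `p`
  be arbitrary with `tr.deg B(t, p) ≤ N` (`B(t, p) = K(ω₁, ω₂, η₁, η₂)` is the field of the problem). There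
  is a nonzero form `P` of degree `r` such that for all rational `c` with `P(c) ≠ 0`,
  `u_i = (∑_j c_ij b_j) z`, the transcendence degree of `B((t, u), p)` is at least that of `B(t, p)` plus
  `r`, and `Q1` for `(t, p)` implies `Q1` for `((t, u), p)`.
* (2) Let `ω₁`, `ω₂` be a basis of a lattice with algebraic invariants `g₂ = 60 G₄`, `g₃ = 140 G₆`, with or
  without complex multiplication, and let the algebraic numbers `b'_1, …, b'_m'` be linearly independent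
  over its field `k` (the finitely many exceptional `n` may depend on `ω₁`, `ω₂`, `b'`, but `E` does not).
  No `b'_j z` is a lattice point; `m + 2m'` of the `1 + m + 2m'` numbers `z`, `e^{b_j z}`, `℘(b'_j z)`,
  `ζ(b'_j z)` (`vals`) are algebraically independent; if one of them is algebraic, all the others are
  algebraically independent. If `tr.deg B(t, p) ≤ N`, `r = 0` or `r + N + 1 ≤ m`, `r' = 0` or
  `r' + N + 1 ≤ m'`, then there is a nonzero form `P` of degree `r + 2r'` such that for all rational `c`,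
  `c'` with `P(c, c') ≠ 0`, `u_i = (∑_j c_ij b_j) z`, `v_i = (∑_j c'_ij b'_j) z`: no `v_i` is a lattice
  point, the transcendence degree of `B((t, u), (p, v))` is at least that of `B(t, p)` plus `r + 2r'`, `Q1`
  for `(t, p)` implies `Q1` for `((t, u), (p, v))`, and for complex multiplication and `t = p = ∅` the
  inequality `Q1` holds for `(u, v)`.
* (3) Let the lattice and `b'` be as in (2) and let even `1, b_1, …, b_m` be linearly independent. If `e^z`
  is algebraic (for `z = log` this is the integer `n`), then ALL the `1 + m + 2m'` numbers `z`, `e^{b_j z}`,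
  `℘(b'_j z)`, `ζ(b'_j z)` are algebraically independent over `ℚ`. -/
theorem result :
    LinearIndependent ℚ (fun p : Nat.Primes => ((Real.log (p : ℕ) : ℝ) : ℂ)) ∧
    ∀ z : ℕ → ℂ, (∀ k n : ℕ, 0 < k → 0 < n → z (k * n) = z k + z n) →
      LinearIndependent ℚ (fun p : Nat.Primes => z p) →
    ∃ E : Set ℕ, Filter.Tendsto (fun N : ℕ => (∑ n ∈ Finset.Icc 1 N,
        E.indicator (fun n => (1 : ℝ) / n) n) / Real.log N) Filter.atTop (nhds 0) ∧
      (∀ (m : ℕ) (b : Fin m → ℂ), (∀ j, IsAlgebraic ℚ (b j)) → LinearIndependent ℚ b →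
        (∃ B : Finset ℕ, ∀ n : ℕ, 1 ≤ n → n ∉ E → n ∉ B → Sch b (z n) ∧
          ∀ r N : ℕ, r + N + 1 ≤ m → ∀ (ω₁ ω₂ : ℂ) (s k : ℕ) (t : Fin s → ℂ) (p : Fin k → ℂ),
            ¬ HasTrdeg (bigField ω₁ ω₂ t p) (N + 1) →
            ∃ P : MvPolynomial (Fin r × Fin m) ℂ, P ≠ 0 ∧ P.IsHomogeneous r ∧
            ∀ c : Fin r → Fin m → ℚ, MvPolynomial.eval (fun q => (c q.1 q.2 : ℂ)) P ≠ 0 →
            ∀ u : Fin r → ℂ, (∀ i, u i = (∑ j, (c i j : ℂ) * b j) * z n) →
              (∀ d, HasTrdeg (bigField ω₁ ω₂ t p) d →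
                HasTrdeg (bigField ω₁ ω₂ (Fin.append t u) p) (d + r)) ∧
              (Q1 ω₁ ω₂ t p → Q1 ω₁ ω₂ (Fin.append t u) p)) ∧
        ∀ (m' : ℕ) (b' : Fin m' → ℂ), (∀ j, IsAlgebraic ℚ (b' j)) →
        ∀ ω₁ ω₂ : ℂ, (ω₂ / ω₁).im ≠ 0 → IsAlgebraic ℚ (60 * gk 4 ω₁ ω₂) →
        IsAlgebraic ℚ (140 * gk 6 ω₁ ω₂) → KIndep ω₁ ω₂ b' →
        ∃ B : Finset ℕ, ∀ n : ℕ, 1 ≤ n → n ∉ E → n ∉ B →
          (∀ j, ∀ a c : ℤ, b' j * z n ≠ (a : ℂ) * ω₁ + (c : ℂ) * ω₂) ∧
          (∃ s : Fin (m + 2 * m') → Option (Fin m ⊕ (Fin m' ⊕ Fin m')),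
            AlgebraicIndependent ℚ (fun i => vals ω₁ ω₂ b b' (z n) (s i))) ∧
          (∀ o, IsAlgebraic ℚ (vals ω₁ ω₂ b b' (z n) o) →
            AlgebraicIndependent ℚ (fun q : {q // q ≠ o} => vals ω₁ ω₂ b b' (z n) q)) ∧
          ∀ r r' N : ℕ, (0 < r → r + N + 1 ≤ m) → (0 < r' → r' + N + 1 ≤ m') →
          ∀ (s k : ℕ) (t : Fin s → ℂ) (p : Fin k → ℂ), ¬ HasTrdeg (bigField ω₁ ω₂ t p) (N + 1) →
          ∃ P : MvPolynomial (Fin r × Fin m ⊕ Fin r' × Fin m') ℂ, P ≠ 0 ∧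
            P.IsHomogeneous (r + 2 * r') ∧
          ∀ (c : Fin r → Fin m → ℚ) (c' : Fin r' → Fin m' → ℚ),
            MvPolynomial.eval (Sum.elim (fun q => (c q.1 q.2 : ℂ))
              (fun q => (c' q.1 q.2 : ℂ))) P ≠ 0 →
          ∀ (u : Fin r → ℂ) (v : Fin r' → ℂ), (∀ i, u i = (∑ j, (c i j : ℂ) * b j) * z n) →
            (∀ i, v i = (∑ j, (c' i j : ℂ) * b' j) * z n) →
            (∀ i, ∀ a c : ℤ, v i ≠ (a : ℂ) * ω₁ + (c : ℂ) * ω₂) ∧
            (∀ d, HasTrdeg (bigField ω₁ ω₂ t p) d →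
              HasTrdeg (bigField ω₁ ω₂ (Fin.append t u) (Fin.append p v)) (d + r + 2 * r')) ∧
            (Q1 ω₁ ω₂ t p → Q1 ω₁ ω₂ (Fin.append t u) (Fin.append p v)) ∧
            (s = 0 → k = 0 → IsCM ω₁ ω₂ → Q1 ω₁ ω₂ (Fin.append t u) (Fin.append p v))) ∧
      -- the case of an algebraic number e^z
      ∀ (m m' : ℕ) (b : Fin m → ℂ) (b' : Fin m' → ℂ), (∀ j, IsAlgebraic ℚ (b j)) →
        (∀ j, IsAlgebraic ℚ (b' j)) → LinearIndependent ℚ (Fin.cons 1 b : Fin (m + 1) → ℂ) →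
        ∀ ω₁ ω₂ : ℂ, (ω₂ / ω₁).im ≠ 0 → IsAlgebraic ℚ (60 * gk 4 ω₁ ω₂) →
        IsAlgebraic ℚ (140 * gk 6 ω₁ ω₂) → KIndep ω₁ ω₂ b' →
        {n : ℕ | 1 ≤ n ∧ n ∉ E ∧ IsAlgebraic ℚ (Complex.exp (z n)) ∧
          ¬ AlgebraicIndependent ℚ (vals ω₁ ω₂ b b' (z n))}.Finite :=
  AD.main

end Pool.Agent.Results.MP_8da9ea_nt.AlmostAllIntegers
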