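import Pool.Agent.Work.MP_8da9ea_nt.CR.Fin

/-!
# The elliptico-toric conjecture: closure rank and reduction to a countable field
-/

set_option autoImplicit false

namespace Pool.Agent.Results.MP_8da9ea_nt.CountableReduction

open Pool.Agent.Work.MP_8da9ea_nt Pool.Agent.Work.MP_8da9ea_nt.EB

/-- There is a closure operator `cl`, from sets of complex numbers to subfields of `ℂ` (increasing,
monotone, idempotent, finitary, with countable values on countable sets), whose values are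
algebraically closed in `ℂ`, contain the field `B = K(ω₁, ω₂, η₁, η₂)` of the problem whenever they
contain its data `ω₁`, `ω₂`, `t`, `p`, and contain the `j`-invariant of a lattice if and only if they
contain `τ = ω₂ / ω₁`, such that the following holds for every countable `S` (for example the empty
set), with `F = cl S`, for every lattice and for all `t`, `p`. Let `z 0, …, z (r - 1)` be algebraic over
`B` and independent over `S` for the closure operator (no `z i` is in the closure of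
`S ∪ {z j | j < i}`).

* Let the `j`-invariant of the lattice not be in `F`. Then it has no complex multiplication. Put
  `δ = dim(t mod F) + 3 + 2 dim ⟨p⟩`, where `dim(t mod F)` is the dimension over `ℚ` of the span of `t`
  modulo `F`, and `R = max 1 r`. There is a tuple `t'` of elements of `F` in the span of `t`, with
  `dim ⟨t⟩ ≤ dim ⟨t'⟩ + dim(t mod F)`, such that `Q1` for the square lattice and `t'` (without points `p`)
  implies `Q1` for `ω₁, ω₂, t, p`. Moreover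
  (1) `tr.deg B ≥ tr.deg L + δ + R` for every field `L ≤ F` whose elements are algebraic over `B`;
  (2) `Q1` holds if `tr.deg ℚ(2πi, t', e^t') ≥ dim ⟨t'⟩ + 1 - R`;
  (3) `Q1` holds if all elements of the span of `t` in `F` are algebraic, or if
  `dim ⟨t⟩ ≤ dim(t mod F) + R`.
* Let the `j`-invariant of the lattice be in `F` (so for every lattice with complex multiplication and
  for every lattice with algebraic invariants). Put `δ = dim(t mod F) + 2 dim_k(p / ω₁ mod F)`,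
  `R = max r (min 1 δ)`. There are a tuple `t'` of elements of `F` in the `ℚ`-span of `t` and a tuple `p'`
  of elements of `F` in the `k`-span of the `p j / ω₁`, not lattice points of `ℤ + ℤ τ`, such that `Q1` for
  `1, τ, t', p'` implies `Q1` for `ω₁, ω₂, t, p`. The field `B' = B(1, τ, t', p')` is contained in `F` and
  algebraic over `B`, and `dim ⟨t⟩ ≤ dim ⟨t'⟩ + dim(t mod F)`, similarly for `p`, `p'`. Moreover
  (1) `tr.deg B ≥ tr.deg L + δ + R` for every field `L ≤ F` whose elements are algebraic over `B`;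
  (2) if `Q1` for `1, τ, t', p'` fails by at most `R`, then `Q1` holds for `ω₁, ω₂, t, p`;
  (3) `Q1` holds if `dim ⟨t⟩ + 4 / [k : ℚ] + 2 dim ⟨p⟩ ≤ m + δ + R`, where `m = 2`, or `m` is the
  transcendence degree of the field of periods of the lattice `ℤ + ℤ τ`; so with complex
  multiplication it holds if the dimensions do not drop modulo `F`, and without complex multiplication
  if moreover `R ≥ 2`;
  (4) `Q1` holds if all elements of the span of `t` in `F` are algebraic and `4 / [k : ℚ] + 2 dim ⟨p⟩` is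
  at most `R` plus twice the `k`-dimension of the `p j / ω₁` modulo `F`.

So if `Q1` fails for `ω₁, ω₂, t, p`, then it fails for data `1, τ, t', p'` (or `1, i, t'`) in the countable
field `cl ∅` with `t'` in the span of `t` and `p'` in the `k`-span of `p / ω₁`. -/
theorem result :
    ∃ cl : Set ℂ → IntermediateField ℚ ℂ,
      (∀ S : Set ℂ, S ⊆ cl S) ∧ (∀ S T : Set ℂ, S ⊆ cl T → cl S ≤ cl T) ∧
      (∀ S x, x ∈ cl S → ∃ T : Finset ℂ, (T : Set ℂ) ⊆ S ∧ x ∈ cl (T : Set ℂ)) ∧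
      (∀ S, S.Countable → (cl S : Set ℂ).Countable) ∧
      (∀ S x, IsAlgebraic (cl S) x → x ∈ cl S) ∧
      (∀ S, ∀ ω₁ ∈ cl S, ∀ ω₂ ∈ cl S, ∀ (s n : ℕ) (t : Fin s → ℂ) (p : Fin n → ℂ),
        (∀ l, t l ∈ cl S) → (∀ i, p i ∈ cl S) → bigField ω₁ ω₂ t p ≤ cl S) ∧
      (∀ S ω₁ ω₂, (ω₂ / ω₁).im ≠ 0 → (jInv ω₁ ω₂ ∈ cl S ↔ ω₂ / ω₁ ∈ cl S)) ∧
      ∀ S : Set ℂ, S.Countable → ∀ ω₁ ω₂ : ℂ, (ω₂ / ω₁).im ≠ 0 →
        ∀ (s n : ℕ) (t : Fin s → ℂ) (p : Fin n → ℂ),
        (jInv ω₁ ω₂ ∉ cl S → ¬ IsCM ω₁ ω₂ ∧ ∃ (a : ℕ) (t' : Fin a → ℂ),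
          (∀ l, t' l ∈ cl S ∧ t' l ∈ Submodule.span ℚ (Set.range t)) ∧
          tDim t ≤ tDim t' + modDim (cl S) t ∧
          (Q1 1 Complex.I t' (![] : Fin 0 → ℂ) → Q1 ω₁ ω₂ t p) ∧
          ∀ (r : ℕ) (z : Fin r → ℂ), (∀ i, IsAlgebraic (bigField ω₁ ω₂ t p) (z i)) →
          (∀ i, z i ∉ cl (S ∪ z '' {j | j < i})) →
          (∀ L : IntermediateField ℚ ℂ, L ≤ cl S →
            (∀ x ∈ L, IsAlgebraic (bigField ω₁ ω₂ t p) x) → ∀ d, HasTrdeg L d →
            HasTrdeg (bigField ω₁ ω₂ t p)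
              (d + (modDim (cl S) t + 3 + kDim2 ω₁ ω₂ p) + max 1 r)) ∧
          (∀ N, HasTrdeg (expField t') N → tDim t' + 1 ≤ N + max 1 r → Q1 ω₁ ω₂ t p) ∧
          ((∀ x ∈ Submodule.span ℚ (Set.range t), x ∈ cl S → IsAlgebraic ℚ x) ∨
            tDim t ≤ modDim (cl S) t + max 1 r → Q1 ω₁ ω₂ t p)) ∧
        (jInv ω₁ ω₂ ∈ cl S → ∃ (a b : ℕ) (t' : Fin a → ℂ) (p' : Fin b → ℂ),
          (∀ l, t' l ∈ cl S ∧ t' l ∈ Submodule.span ℚ (Set.range t)) ∧
          (∀ i, p' i ∈ cl S ∧ (∀ x y : ℤ, p' i ≠ x + y * (ω₂ / ω₁)) ∧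
            ∃ g : Fin n → ℂ, (∀ j, InK ω₁ ω₂ (g j)) ∧ p' i * ω₁ = ∑ j, g j * p j) ∧
          tDim t ≤ tDim t' + modDim (cl S) t ∧
          kDim2 ω₁ ω₂ p ≤ kDim2 1 (ω₂ / ω₁) p' + modDim2 (cl S) ω₁ ω₂ p ∧
          (∀ x ∈ bigField 1 (ω₂ / ω₁) t' p', x ∈ cl S ∧ IsAlgebraic (bigField ω₁ ω₂ t p) x) ∧
          (Q1 1 (ω₂ / ω₁) t' p' → Q1 ω₁ ω₂ t p) ∧
          ∀ (r : ℕ) (z : Fin r → ℂ), (∀ i, IsAlgebraic (bigField ω₁ ω₂ t p) (z i)) →
          (∀ i, z i ∉ cl (S ∪ z '' {j | j < i})) →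
          ∀ R, R = max r (min 1 (modDim (cl S) t + modDim2 (cl S) ω₁ ω₂ p)) →
          (∀ L : IntermediateField ℚ ℂ, L ≤ cl S →
            (∀ x ∈ L, IsAlgebraic (bigField ω₁ ω₂ t p) x) → ∀ d, HasTrdeg L d →
            HasTrdeg (bigField ω₁ ω₂ t p)
              (d + (modDim (cl S) t + modDim2 (cl S) ω₁ ω₂ p) + R)) ∧
          (∀ N, HasTrdeg (bigField 1 (ω₂ / ω₁) t' p') N →
            tDim t' + (open Classical in if IsCM ω₁ ω₂ then 2 else 4) +
              kDim2 1 (ω₂ / ω₁) p' ≤ N + R → Q1 ω₁ ω₂ t p) ∧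
          (∀ m, HasTrdeg (bigField 1 (ω₂ / ω₁) (![] : Fin 0 → ℂ) (![] : Fin 0 → ℂ)) m ∨ m = 2 →
            tDim t + (open Classical in if IsCM ω₁ ω₂ then 2 else 4) + kDim2 ω₁ ω₂ p ≤
              m + (modDim (cl S) t + modDim2 (cl S) ω₁ ω₂ p) + R → Q1 ω₁ ω₂ t p) ∧
          ((∀ x ∈ Submodule.span ℚ (Set.range t), x ∈ cl S → IsAlgebraic ℚ x) →
            (open Classical in if IsCM ω₁ ω₂ then 2 else 4) + kDim2 ω₁ ω₂ p ≤
              modDim2 (cl S) ω₁ ω₂ p + R → Q1 ω₁ ω₂ t p)) :=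
  CR.main0

end Pool.Agent.Results.MP_8da9ea_nt.CountableReduction
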