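import Pool.Agent.Work.MP_8da9ea_nt.MX.AsmF

/-!
# The elliptico-toric inequality along almost all lines: the full mixed inequality
-/

set_option autoImplicit false

namespace Pool.Agent.Results.MP_8da9ea_nt.MixedPointsOnLines

open Pool.Agent.Work.MP_8da9ea_nt Pool.Agent.Work.MP_8da9ea_nt.S
  Pool.Agent.Work.MP_327059_nt.GL

/-- Every tuple of algebraic numbers is of finite type with exponent `1`.

For all `Q`, `m`, `m'`, `κ` there is `n₀` such that for all complex numbers `b_1, …, b_m`, linearly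
independent over `ℚ`, and `b'_1, …, b'_m'` such that the tuple `(b, b')` is of finite type with exponent
`Q` and of transcendence degree at most `κ`, and for all `ℚ`-linearly independent complex numbers
`x_1, …, x_n`, `n ≥ n₀`, there is a nonzero polynomial `P` of degree at most `m`, and for all `ω₁`, `ω₂`
there is a nonzero polynomial `P₁` of degree at most `2m + 4m'`, such that for every rational `w` with
`P(w) ≠ 0` the number `z = w_1 x_1 + … + w_n x_n` has the following properties.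
* Schanuel's inequality holds for `(b_1 z, …, b_m z)`: `m` of the `2m` numbers `b_j z`, `e^{b_j z}` are
  algebraically independent over `ℚ`.
* Suppose that `ω₁`, `ω₂` is a basis of a lattice `Ω` with algebraic invariants `g₂`, `g₃`, with or
  without complex multiplication, that the `b'_j` are linearly independent over its field `k`, and that
  `P₁(w) ≠ 0`. Then the full mixed inequality holds for `(b_1 z, …, b_m z)` and `(b'_1 z, …, b'_m' z)`:
  no `b'_j z` is in `Ω`, and `m + 2m'` of the `2m + 3m'` numbers `b_j z`, `e^{b_j z}`, `b'_j z`,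
  `℘(b'_j z)`, `ζ(b'_j z)` are algebraically independent over `ℚ`; if all the `b_j z`, `b'_j z` are
  algebraic (for instance if the `b_j`, `b'_j`, `x_i` are), then all the numbers `e^{b_j z}` (`j ≤ m`),
  `℘(b'_j z)`, `ζ(b'_j z)` (`j ≤ m'`) are algebraically independent over `ℚ`.
* Let `t`, `p` be arbitrary and let the transcendence degree of the field `B(t, p)` of the problem be at
  most `N`. Let `r = 0` or `r + N + κ + 1 ≤ m`. Let `r' = 0`, or suppose that `ω₁`, `ω₂` is a basis of a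
  lattice `Ω` with algebraic `j`-invariant, with or without complex multiplication, that the `b'_j` are
  linearly independent over its field `k`, that `P₁(w) ≠ 0`, that `r' + N + κ + 1 ≤ m'`, and that `r = 0`,
  or `g₂`, `g₃` are algebraic, or `r + 2r' + N + κ + 1 ≤ m`. Then there is a nonzero form `P'` of degree
  `r + 2r'` such that for all rational matrices `c`, `c'` with `P'(c, c') ≠ 0` and
  `u_i = (∑_j c_ij b_j) z` (`i ≤ r`), `v_i = (∑_j c'_ij b'_j) z` (`i ≤ r'`): the `v_i` are not in `Ω`, the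
  transcendence degree of `B((t, u), (p, v))` is at least that of `B(t, p)` plus `r + 2r'`, and the
  inequality of the problem for `(t, p)` implies that for `((t, u), (p, v))`. It holds for `t = p = ∅`
  if `Ω` has complex multiplication and an algebraic `j`-invariant (Chudnovsky), so in this case the
  inequality of the problem holds for `(u, v)`, unconditionally. -/
theorem result :
    (∀ (m : ℕ) (b : Fin m → ℂ), (∀ j, IsAlgebraic ℚ (b j)) → FT 1 b ∧ TrLe 0 b) ∧
    ∀ Q m m' κ : ℕ, ∃ n₀ : ℕ, ∀ (b : Fin m → ℂ) (b' : Fin m' → ℂ), FT Q (Fin.append b b') →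
      LinearIndependent ℚ b → TrLe κ (Fin.append b b') →
      ∀ n : ℕ, n₀ ≤ n → ∀ x : Fin n → ℂ, LinearIndependent ℚ x →
      ∃ P : MvPolynomial (Fin n) ℂ, P ≠ 0 ∧ P.totalDegree ≤ m ∧
      ∀ ω₁ ω₂ : ℂ, ∃ P₁ : MvPolynomial (Fin n) ℂ, P₁ ≠ 0 ∧ P₁.totalDegree ≤ 2 * m + 4 * m' ∧
      ∀ w : Fin n → ℚ, MvPolynomial.eval (fun i => (w i : ℂ)) P ≠ 0 →
      ∀ z : ℂ, z = ∑ i, (w i : ℂ) * x i →
        Sch b z ∧
        (LatOK ω₁ ω₂ b' → MvPolynomial.eval (fun i => (w i : ℂ)) P₁ ≠ 0 →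
          IsAlgebraic ℚ (60 * gk 4 ω₁ ω₂) → IsAlgebraic ℚ (140 * gk 6 ω₁ ω₂) →
          (∀ j, ∀ a c : ℤ, b' j * z ≠ (a : ℂ) * ω₁ + (c : ℂ) * ω₂) ∧
          (∃ s : Fin (m + 2 * m') → (Fin m ⊕ Fin m) ⊕ (Fin m' ⊕ Fin m' ⊕ Fin m'),
            AlgebraicIndependent ℚ (fun i =>
              Sum.elim (Sum.elim (fun j => b j * z) (fun j => Complex.exp (b j * z)))
                (Sum.elim (fun j => b' j * z) (Sum.elim (fun j => wp ω₁ ω₂ (b' j * z))
                  (fun j => zt ω₁ ω₂ (b' j * z)))) (s i))) ∧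
          ((∀ j, IsAlgebraic ℚ (b j * z)) → (∀ j, IsAlgebraic ℚ (b' j * z)) →
            AlgebraicIndependent ℚ (Sum.elim (fun j => Complex.exp (b j * z))
              (Sum.elim (fun j => wp ω₁ ω₂ (b' j * z)) (fun j => zt ω₁ ω₂ (b' j * z)))))) ∧
        ∀ r r' N : ℕ, (0 < r → r + N + κ + 1 ≤ m) →
          (0 < r' → LatOK ω₁ ω₂ b' ∧ MvPolynomial.eval (fun i => (w i : ℂ)) P₁ ≠ 0 ∧
            r' + N + κ + 1 ≤ m' ∧
            (0 < r → r + 2 * r' + N + κ + 1 ≤ m ∨ IsAlgebraic ℚ (60 * gk 4 ω₁ ω₂) ∧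
              IsAlgebraic ℚ (140 * gk 6 ω₁ ω₂))) →
          ∀ (s k : ℕ) (t : Fin s → ℂ) (p : Fin k → ℂ), ¬ HasTrdeg (bigField ω₁ ω₂ t p) (N + 1) →
          ∃ P' : MvPolynomial (Fin r × Fin m ⊕ Fin r' × Fin m') ℂ, P' ≠ 0 ∧
            P'.IsHomogeneous (r + 2 * r') ∧
          ∀ (c : Fin r → Fin m → ℚ) (c' : Fin r' → Fin m' → ℚ),
            MvPolynomial.eval (Sum.elim (fun q => (c q.1 q.2 : ℂ))
              (fun q => (c' q.1 q.2 : ℂ))) P' ≠ 0 →
          ∀ (u : Fin r → ℂ) (v : Fin r' → ℂ), (∀ i, u i = (∑ j, (c i j : ℂ) * b j) * z) →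
            (∀ i, v i = (∑ j, (c' i j : ℂ) * b' j) * z) →
            (∀ i, ∀ a b : ℤ, v i ≠ (a : ℂ) * ω₁ + (b : ℂ) * ω₂) ∧
            (∀ d, HasTrdeg (bigField ω₁ ω₂ t p) d →
              HasTrdeg (bigField ω₁ ω₂ (Fin.append t u) (Fin.append p v)) (d + r + 2 * r')) ∧
            (Q1 ω₁ ω₂ t p → Q1 ω₁ ω₂ (Fin.append t u) (Fin.append p v)) ∧
            (s = 0 → k = 0 → (ω₂ / ω₁).im ≠ 0 → IsCM ω₁ ω₂ → IsAlgebraic ℚ (jInv ω₁ ω₂) →
              Q1 ω₁ ω₂ (Fin.append t u) (Fin.append p v)) := by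
  refine ⟨fun m b hb => ⟨x_FTalg m b hb, ?_⟩, ?_⟩
  · intro s hs
    exact (hs.transcendental 0) (hb (s 0))
  · exact MX.final_mb EB.Norm_pf x_MainS MX.x_MixRankF MX.x_FinalZF MX.AbsF_pf MX.TorRank2_pf
      MX.KillMore_pf EB.FTpol_pf

end Pool.Agent.Results.MP_8da9ea_nt.MixedPointsOnLines
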