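import Pool.Agent.Work.MP_8da9ea_nt.SF.Fin

/-!
# The elliptico-toric inequality outside finitely many subspaces
-/

set_option autoImplicit false

namespace Pool.Agent.Results.MP_8da9ea_nt.OutsideSubspaces

open Pool.Agent.Work.MP_8da9ea_nt Pool.Agent.Work.MP_8da9ea_nt.EB Pool.Agent.Work.MP_8da9ea_nt.EC
  Pool.Agent.Work.MP_8da9ea_nt.S

/-- There is a closure operator `cl`, from sets of complex numbers to subfields of `ℂ` (increasing,
monotone, idempotent, finitary, with countable values on countable sets), whose values are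
algebraically closed in `ℂ`, contain the field `B = K(ω₁, ω₂, η₁, η₂)` of the problem whenever they
contain its data `ω₁`, `ω₂`, `t`, `p`, and contain the `j`-invariant of a lattice if and only if they
contain `ω₂ / ω₁`, such that the following holds.

For all `m`, `D` there is `n₀` such that for all `ℚ`-linearly independent algebraic numbers
`b_1, …, b_m` in a field of degree at most `D`, and for EVERY finite-dimensional `ℚ`-space `V` of complex
numbers, there are finitely many subspaces of `V`, of dimension at most `n₀`, such that every `z` in `V`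
outside these subspaces has the following properties.
* Schanuel's inequality holds for `(b_1 z, …, b_m z)`.
* Let `r + N + 1 ≤ m`, let `ω₁`, `ω₂`, `t`, `p` be arbitrary with `tr.deg B(t, p) ≤ N`. There is a nonzero
  form `P` of degree `r` such that for all rational `c` with `P(c) ≠ 0`, `u_i = (∑_j c_ij b_j) z`, the
  transcendence degree of `B((t, u), p)` is at least that of `B(t, p)` plus `r`, and `Q1` for `(t, p)`
  implies `Q1` for `((t, u), p)`.
* Let `S` be countable, `F = cl S`, let the `j`-invariant of the lattice not be in `F`, let `t`, `p` and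
  `t₀ ∈ ℂ^d` be arbitrary such that all elements of `F` in the `ℚ`-span of `t` are in
  `span(b_1 z, …, b_m z, t₀) + 2πiℚ`, and let `y` be `ρ` numbers algebraic over `B` and independent over `S`
  for the closure operator. Then `Q1` holds if `d < max(1, ρ)`, and there is a lower bound for
  `tr.deg B` in general.
* The same with `u_i = (∑_j c_ij b_j) z`, `i ≤ r`, instead of all `b_j z`, for generic rational `c`,
  `r + 2 ≤ m`: then `Q1` holds if `d ≤ max(1, ρ)`.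
* Let `r + 6 ≤ m`. For every lattice, CM or not, there is a nonzero form `P` of degree `r` such that for
  all rational `c` with `P(c) ≠ 0`, `u_i = (∑_j c_ij b_j) z`, the following holds. Let `S` be countable
  with the `j`-invariant of the lattice in `F = cl S` (this is the case for all `S` if it is algebraic),
  let `t`, `p`, `t₀ ∈ ℂ^d`, `p₀ ∈ ℂ^d'` be such that all elements of `F` in the span of `t` are in
  `span(u, t₀) + 2πiℚ`, and all elements of `ω₁ F` in the `k`-span of `p` are in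
  `span_k(p₀) + ℚ ω₁ + ℚ ω₂`, and let `y` be `ρ` numbers algebraic over `B` and independent over `S` for the
  closure operator. With `R = max(ρ, min(1, δ))`, `δ` the dimension of `t` modulo `F` plus twice the
  dimension over `k` of the `p j / ω₁` modulo `F`,
  `tr.deg B ≥ dim ⟨t⟩ + 2 + 2 dim ⟨p⟩ + R - d - 2 d'`. So with complex multiplication `Q1` holds if
  `d + 2 d' ≤ R`, in particular always if `d = d' = 0`, and without if `d + 2 d' + 2 ≤ R`. -/
theorem result :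
    ∃ cl : Set ℂ → IntermediateField ℚ ℂ,
      (∀ S : Set ℂ, S ⊆ cl S) ∧ (∀ S T : Set ℂ, S ⊆ cl T → cl S ≤ cl T) ∧
      (∀ S x, x ∈ cl S → ∃ T : Finset ℂ, (T : Set ℂ) ⊆ S ∧ x ∈ cl (T : Set ℂ)) ∧
      (∀ S, S.Countable → (cl S : Set ℂ).Countable) ∧
      (∀ S x, IsAlgebraic (cl S) x → x ∈ cl S) ∧
      (∀ S, ∀ ω₁ ∈ cl S, ∀ ω₂ ∈ cl S, ∀ (s n : ℕ) (t : Fin s → ℂ) (p : Fin n → ℂ),
        (∀ l, t l ∈ cl S) → (∀ i, p i ∈ cl S) → bigField ω₁ ω₂ t p ≤ cl S) ∧
      (∀ S ω₁ ω₂, (ω₂ / ω₁).im ≠ 0 → (jInv ω₁ ω₂ ∈ cl S ↔ ω₂ / ω₁ ∈ cl S)) ∧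
      ∀ m D : ℕ, ∃ n₀ : ℕ, ∀ b : Fin m → ℂ, (∀ k, IsAlgebraic ℚ (b k)) →
        LinearIndependent ℚ b → Module.finrank ℚ (IntermediateField.adjoin ℚ (Set.range b)) ≤ D →
        ∀ V : Submodule ℚ ℂ, FiniteDimensional ℚ V →
        ∃ T : Finset (Submodule ℚ ℂ), (∀ W ∈ T, W ≤ V ∧ Module.finrank ℚ W ≤ n₀) ∧
        ∀ z ∈ V, (∀ W ∈ T, z ∉ W) →
          Sch b z ∧
          (∀ r N : ℕ, r + N + 1 ≤ m → ∀ (ω₁ ω₂ : ℂ) (s k : ℕ) (t : Fin s → ℂ) (p : Fin k → ℂ),
            ¬ HasTrdeg (bigField ω₁ ω₂ t p) (N + 1) →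
            ∃ P : MvPolynomial (Fin r × Fin m) ℂ, P ≠ 0 ∧ P.IsHomogeneous r ∧
            ∀ c : Fin r → Fin m → ℚ, MvPolynomial.eval (fun q => (c q.1 q.2 : ℂ)) P ≠ 0 →
            ∀ u : Fin r → ℂ, (∀ i, u i = (∑ j, (c i j : ℂ) * b j) * z) →
              (∀ d, HasTrdeg (bigField ω₁ ω₂ t p) d →
                HasTrdeg (bigField ω₁ ω₂ (Fin.append t u) p) (d + r)) ∧
              (Q1 ω₁ ω₂ t p → Q1 ω₁ ω₂ (Fin.append t u) p)) ∧
          (∀ S : Set ℂ, S.Countable → ∀ ω₁ ω₂ : ℂ, (ω₂ / ω₁).im ≠ 0 → jInv ω₁ ω₂ ∉ cl S →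
            ∀ (s k : ℕ) (t : Fin s → ℂ) (p : Fin k → ℂ) (d : ℕ) (t₀ : Fin d → ℂ),
              InnT (cl S) t (Fin.append (fun j => b j * z) t₀) →
            ∀ (ρ : ℕ) (y : Fin ρ → ℂ), (∀ i, IsAlgebraic (bigField ω₁ ω₂ t p) (y i)) →
              (∀ i, y i ∉ cl (S ∪ y '' {j | j < i})) →
              (d < max 1 ρ → Q1 ω₁ ω₂ t p) ∧
              ∀ N : ℕ, N + d ≤ tDim t + 3 + kDim2 ω₁ ω₂ p + max 1 ρ →
                HasTrdeg (bigField ω₁ ω₂ t p) N) ∧
          (∀ r : ℕ, r + 2 ≤ m →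
            ∃ P : MvPolynomial (Fin r × Fin m) ℂ, P ≠ 0 ∧ P.IsHomogeneous r ∧
            ∀ c : Fin r → Fin m → ℚ, MvPolynomial.eval (fun q => (c q.1 q.2 : ℂ)) P ≠ 0 →
            ∀ u : Fin r → ℂ, (∀ i, u i = (∑ j, (c i j : ℂ) * b j) * z) →
            ∀ S : Set ℂ, S.Countable → ∀ ω₁ ω₂ : ℂ, (ω₂ / ω₁).im ≠ 0 → jInv ω₁ ω₂ ∉ cl S →
            ∀ (s k : ℕ) (t : Fin s → ℂ) (p : Fin k → ℂ) (d : ℕ) (t₀ : Fin d → ℂ),
              InnT (cl S) t (Fin.append u t₀) →
            ∀ (ρ : ℕ) (y : Fin ρ → ℂ), (∀ i, IsAlgebraic (bigField ω₁ ω₂ t p) (y i)) →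
              (∀ i, y i ∉ cl (S ∪ y '' {j | j < i})) →
              (d ≤ max 1 ρ → Q1 ω₁ ω₂ t p) ∧
              ∀ N : ℕ, N + d ≤ tDim t + 4 + kDim2 ω₁ ω₂ p + max 1 ρ →
                HasTrdeg (bigField ω₁ ω₂ t p) N) ∧
          (∀ r : ℕ, r + 6 ≤ m → ∀ ω₁ ω₂ : ℂ, (ω₂ / ω₁).im ≠ 0 →
            ∃ P : MvPolynomial (Fin r × Fin m) ℂ, P ≠ 0 ∧ P.IsHomogeneous r ∧
            ∀ c : Fin r → Fin m → ℚ, MvPolynomial.eval (fun q => (c q.1 q.2 : ℂ)) P ≠ 0 →
            ∀ u : Fin r → ℂ, (∀ i, u i = (∑ j, (c i j : ℂ) * b j) * z) →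
            ∀ S : Set ℂ, S.Countable → jInv ω₁ ω₂ ∈ cl S →
            ∀ (s k : ℕ) (t : Fin s → ℂ) (p : Fin k → ℂ) (d d' : ℕ) (t₀ : Fin d → ℂ)
              (p₀ : Fin d' → ℂ),
              InnT (cl S) t (Fin.append u t₀) → InnK (cl S) ω₁ ω₂ p p₀ →
            ∀ (ρ : ℕ) (y : Fin ρ → ℂ), (∀ i, IsAlgebraic (bigField ω₁ ω₂ t p) (y i)) →
              (∀ i, y i ∉ cl (S ∪ y '' {j | j < i})) →
            ∀ R : ℕ, R = max ρ (min 1 (modDim (cl S) t + modDim2 (cl S) ω₁ ω₂ p)) →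
              ((open Classical in if IsCM ω₁ ω₂ then 0 else 2) + d + 2 * d' ≤ R →
                Q1 ω₁ ω₂ t p) ∧
              ∀ N : ℕ, N + d + 2 * d' ≤ tDim t + 2 + kDim2 ω₁ ω₂ p + R →
                HasTrdeg (bigField ω₁ ω₂ t p) N) :=
  SF.main

end Pool.Agent.Results.MP_8da9ea_nt.OutsideSubspaces
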